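import Pool.Agent.H5.OR.Targets3
import Pool.Agent.H5.OR.All

/-!
# Row M4 of the board `ors_modules` (MP_e1fd52_al): the free factor of a leaf is mapped into the
stabiliser of a blue vertex (helper49)
-/

set_option autoImplicit false

open scoped Classical

namespace Pool.Agent.H49.ORS

open ORg

/-- a red vertex of the tree of a star is a translate of the base vertex -/
theorem red_orbit {G I : Type} [Group G] {S : GTree G} {A : Subgroup G} {B : I → Subgroup G}
    {r : S.V} {b : I → S.V} (hI : Nonempty I) (h : IsStT S A B r b) (v : S.V) (hv : S.red v) :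
    ∃ g : G, v = g • r := by
  obtain ⟨_, _, _, _, _, _, _, _, t9, _⟩ := All.TA G S
  obtain ⟨i⟩ := hI
  have hrb : r ≠ b i := (h.adj i).ne
  obtain ⟨u, hu⟩ : ∃ u, v ≠ u := by
    by_cases h1 : v = r
    · exact ⟨b i, by rw [h1]; exact hrb⟩
    · exact ⟨r, h1⟩
  obtain ⟨c, hc, _⟩ := t9 v u hu
  obtain ⟨g, _, hg, _⟩ := h.edge v c hv hc
  exact ⟨g, hg⟩

theorem pf_M4 (M2 : T_M2) : T_M4 := by
  intro I X Z P G _ _ w a iF iP S r b I' X' Z' P' G' _ _ w' a' iF' iP' S' r' b' h h' φ hP i hnt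
  have hfin := h.hy.fin i
  have hwh : Wh (w i) := by
    rcases h.hy.lf i with h1 | h1
    · exact h1.1
    · exact absurd hnt (not_nontrivial_iff_subsingleton.2 h1)
  let ψ : FreeGroup (X i) →* G' := φ.toMonoidHom.comp ((iF i).comp fl)
  have hψ : ∀ y, ψ y = φ (iF i (fl y)) := fun y => rfl
  have hK : ∀ v : S'.V, S'.red v → (∃ y0 : FreeGroup (X i), y0 ≠ 1 ∧ ψ y0 • v = v) →
      ∃ x : FreeGroup (X i), ∀ g : FreeGroup (X i), ψ g • v = v →
        x⁻¹ * g * x ∈ Subgroup.zpowers (w i) := by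
    intro v hv hex
    obtain ⟨g', rfl⟩ := red_orbit h'.hy.ne h'.am v hv
    have hiff : ∀ y : FreeGroup (X i), ψ y • g' • r' = g' • r' →
        iF i (fl y) • φ.symm g' • r = φ.symm g' • r := by
      intro y hy
      have h1 : (g'⁻¹ * φ (iF i (fl y)) * g') • r' = r' := by
        rw [mul_smul, mul_smul, ← hψ, hy, inv_smul_smul]
      rw [h'.am.stA] at h1
      have h2 : (φ.symm g')⁻¹ * iF i (fl y) * φ.symm g' ∈ iP.range := by
        rw [hP]
        simpa using h1
      rw [← h.am.stA, mul_smul, mul_smul, inv_smul_eq_iff] at h2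
      exact h2
    have hur : S.red (φ.symm g' • r) := (S.red_smul _ _).2 h.am.red
    obtain ⟨y0, hy0, hf0⟩ := hex
    obtain ⟨y, _, hy⟩ := M2 I X Z P G w a iF iP S r b h i _ hur ⟨y0, hy0, hiff y0 hf0⟩
    exact ⟨y, fun g hg => hy g (hiff g hg)⟩
  have hred : ∀ v : S'.V, S'.red v → ∃ x : FreeGroup (X i), ∀ g : FreeGroup (X i),
      ψ g • v = v → x⁻¹ * g * x ∈ Subgroup.zpowers (w i) := by
    intro v hv
    by_cases hex : ∃ y0 : FreeGroup (X i), y0 ≠ 1 ∧ ψ y0 • v = v
    · exact hK v hv hex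
    · refine ⟨1, fun g hg => ?_⟩
      have h1 : g = 1 := by
        by_contra hg1
        exact hex ⟨g, hg1, hg⟩
      rw [h1]
      simp
  have hLS := All.LS (X i) (w i) (S'.comap ψ) (h.hy.root i) hwh ?_ ?_
  · obtain ⟨v, hv⟩ := hLS
    refine ⟨v, ?_, fun y => hv y⟩
    intro hvr
    obtain ⟨k, j, hij⟩ := hnt
    have h1 : FreeGroup.of k ≠ 1 := FreeGroup.of_ne_one k
    obtain ⟨f, hf⟩ := hK v hvr ⟨FreeGroup.of k, h1, hv _⟩
    have hcomm : ∀ x y : FreeGroup (X i), x * y = y * x := by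
      intro x y
      have hx := hf x (hv _)
      have hy := hf y (hv _)
      rw [Subgroup.mem_zpowers_iff] at hx hy
      obtain ⟨m, hm⟩ := hx
      obtain ⟨n, hn⟩ := hy
      have h2 : x = f * w i ^ m * f⁻¹ := by rw [hm]; group
      have h3 : y = f * w i ^ n * f⁻¹ := by rw [hn]; group
      rw [h2, h3]
      have h4 : w i ^ m * w i ^ n = w i ^ n * w i ^ m := by rw [← zpow_add, ← zpow_add, add_comm]
      calc f * w i ^ m * f⁻¹ * (f * w i ^ n * f⁻¹) = f * (w i ^ m * w i ^ n) * f⁻¹ := by group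
        _ = f * (w i ^ n * w i ^ m) * f⁻¹ := by rw [h4]
        _ = f * w i ^ n * f⁻¹ * (f * w i ^ m * f⁻¹) := by group
    exact ORh.F4f.not_comm hij (hcomm _ _)
  · refine ⟨r', ?_⟩
    change ψ (w i) • r' = r'
    rw [h'.am.stA, hψ, h.eq, ← hP]
    exact ⟨a i, rfl⟩
  · intro u v huv
    have hadj : S'.T.Adj u v := huv
    by_cases hu : S'.red u
    · obtain ⟨x, hx⟩ := hred u hu
      exact ⟨x, fun g hg _ => hx g hg⟩
    · have hv : S'.red v := (S'.red_adj _ _ hadj.symm).2 hu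
      obtain ⟨x, hx⟩ := hred v hv
      exact ⟨x, fun g _ hg => hx g hg⟩

end Pool.Agent.H49.ORS
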