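import Pool.Agent.H5.OR.Targets3

/-!
# Row M8 of the board `ors_modules` (MP_e1fd52_al) (helper49)
-/

set_option autoImplicit false

open scoped Classical

namespace Pool.Agent.H49.ORS

open ORg

theorem pf_M8 : T_M8 := by
  intro I X Z P G _ _ v a iF iP hSt
  let N : Subgroup G := Subgroup.normalClosure ((iP.range : Set G) ∪
    ⋃ i, (((iF i).comp fl).range : Set G))
  let π : G →* G ⧸ N := QuotientGroup.mk' N
  let u : ∀ i, FreeGroup (X i ⊕ Z i) →* FreeGroup (Σ i, Z i) := fun i =>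
    FreeGroup.lift (Sum.elim (fun _ => 1) (fun z => FreeGroup.of ⟨i, z⟩))
  have hufl : ∀ i, ∀ y : FreeGroup (X i), u i (fl y) = 1 := by
    intro i
    have h : (u i).comp fl = 1 := by
      ext x
      simp [u]
    exact fun y => DFunLike.congr_fun h y
  obtain ⟨ρ, hρ1, hρ2⟩ := hSt.lift (FreeGroup (Σ i, Z i)) 1 u (by
    intro i h
    show 1 = u i (fl (v i) ^ Multiplicative.toAdd h)
    rw [map_zpow, hufl, one_zpow])
  have hN : N ≤ ρ.ker := by
    apply Subgroup.normalClosure_le_normal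
    rintro g (⟨x, rfl⟩ | hg)
    · exact hρ1 x
    · rw [Set.mem_iUnion] at hg
      obtain ⟨i, x, rfl⟩ := hg
      show ρ (iF i (fl x)) = 1
      rw [hρ2, hufl]
  let ρ' : G ⧸ N →* FreeGroup (Σ i, Z i) := QuotientGroup.lift N ρ hN
  have hρ' : ∀ g, ρ' (π g) = ρ g := fun g => QuotientGroup.lift_mk' N hN g
  let σ : FreeGroup (Σ i, Z i) →* G ⧸ N :=
    FreeGroup.lift (fun y => π (iF y.1 (FreeGroup.of (Sum.inr y.2))))
  have hσ : ∀ y, σ (FreeGroup.of y) = π (iF y.1 (FreeGroup.of (Sum.inr y.2))) := fun y =>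
    FreeGroup.lift_apply_of
  have h1 : ρ'.comp σ = MonoidHom.id _ := by
    apply FreeGroup.ext_hom
    intro y
    show ρ' (σ (FreeGroup.of y)) = FreeGroup.of y
    rw [hσ, hρ', hρ2]
    simp [u]
  have hπ1 : ∀ x, π (iP x) = 1 := fun x =>
    (QuotientGroup.eq_one_iff _).2 (Subgroup.subset_normalClosure (Or.inl ⟨x, rfl⟩))
  have hπ2 : ∀ i x, π (iF i (fl x)) = 1 := fun i x =>
    (QuotientGroup.eq_one_iff _).2 (Subgroup.subset_normalClosure
      (Or.inr (Set.mem_iUnion.2 ⟨i, x, rfl⟩)))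
  have h2 : (σ.comp ρ) = π := by
    apply hSt.uniq (G ⧸ N)
    · intro x
      show σ (ρ (iP x)) = π (iP x)
      rw [hρ1, hπ1]
      exact map_one σ
    · intro i
      have h3 : (σ.comp (u i)) = π.comp (iF i) := by
        apply FreeGroup.ext_hom
        intro x
        rcases x with x | y
        · show σ (u i (FreeGroup.of (Sum.inl x))) = π (iF i (FreeGroup.of (Sum.inl x)))
          have h4 : u i (FreeGroup.of (Sum.inl x)) = 1 := by simp [u]
          have h5 : π (iF i (FreeGroup.of (Sum.inl x))) = 1 := by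
            have := hπ2 i (FreeGroup.of x)
            rwa [FreeGroup.map.of] at this
          rw [h4, h5, map_one]
        · show σ (u i (FreeGroup.of (Sum.inr y))) = π (iF i (FreeGroup.of (Sum.inr y)))
          have h4 : u i (FreeGroup.of (Sum.inr y)) = FreeGroup.of ⟨i, y⟩ := by simp [u]
          rw [h4, hσ]
      intro x
      show σ (ρ (iF i x)) = π (iF i x)
      rw [hρ2]
      exact DFunLike.congr_fun h3 x
  refine ⟨MonoidHom.toMulEquiv ρ' σ ?_ h1⟩
  apply QuotientGroup.monoidHom_ext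
  ext g
  show σ (ρ' (π g)) = π g
  rw [hρ']
  exact DFunLike.congr_fun h2 g

end Pool.Agent.H49.ORS
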